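import Pool.Agent.Q145.LX.Pr
import Pool.Agent.Q145.LT.All

set_option autoImplicit false
set_option maxHeartbeats 4000000

/-!
# The threshold for prime tuples in progressions to almost all large moduli

For a modulus `q ∈ [1, T]` and shifts `h_1, ..., h_K ∈ (5 Y T, 9 Y T]` let `N` be the number of the multiples `n` of `q`
with `q Y < n ≤ 2 q Y` for which `n + h_1, ..., n + h_K` are all prime.  The shifts have the size `4 Y T ∈ [X, 2 X]`, so the
moduli go up to `X / (2 Y)`, where `Y` can be a power of `log X`.  The formula of Hardy and Littlewood for the progression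
predicts `N ~ 𝔖(q, h) Y / log (4 Y T) ^ K`, so primes can be expected only for `Y` above `(log X) ^ K`.  We prove that this is
the threshold, for growing `K`:

* `Y ≤ (log X) ^ ((1 - δ) K)`, `1 ≤ K ≤ log X / log log X`: for almost all moduli and almost all admissible shifts `N = 0`;
* `(log X) ^ ((1 + δ) K + C) ≤ Y ≤ X` (`C = C(δ)`): for almost all moduli and almost all admissible shifts the formula holds,
  for `K ≤ A log log X` and all large `X`, for `K ≤ c log X / log log X` and arbitrarily large `X`, and for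
  `K ≤ c log X / log log X` and all large `X` unless there is an exceptional zero.

(The shifts may be translated: the classes `n ≡ c` modulo `q` are covered too, with `5 Y T < h_i + c ≤ 9 Y T`.)
-/

namespace Pool.Agent.Results.MP_e87c7d_nt.LargeModuli

open Finset Filter

open scoped Classical

/-- For a prime `p`: the number of classes `m` modulo `p` for which `p` divides one of the `q m + h_i`. -/
def classes {K : ℕ} (q : ℕ) (h : Fin K → ℕ) (p : ℕ) : ℕ := ((range p).filter fun m => ∃ i, p ∣ q * m + h i).card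

/-- The tuple `n + h_1, ..., n + h_K` has no fixed prime divisor on the multiples `n` of `q`. -/
def Admissible {K : ℕ} (q : ℕ) (h : Fin K → ℕ) : Prop := ∀ p : ℕ, p.Prime → classes q h p < p

/-- The partial products (primes up to `w`) of the singular series of the tuple on the multiples of `q`. -/
noncomputable def partialSeries {K : ℕ} (q : ℕ) (h : Fin K → ℕ) (w : ℕ) : ℝ :=
  ∏ p ∈ (Icc 1 w).filter Nat.Prime, (1 - (classes q h p : ℝ) / p) / (1 - 1 / (p : ℝ)) ^ K

/-- The singular series: the limit of the partial products. -/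
noncomputable def series {K : ℕ} (q : ℕ) (h : Fin K → ℕ) : ℝ := limUnder atTop (partialSeries q h)

/-- The number of the multiples `q Y < n ≤ 2 q Y` of `q` for which all the `n + h_i` are prime. -/
def count {K : ℕ} (Y q : ℕ) (h : Fin K → ℕ) : ℕ := ((Ioc (q * Y) (2 * q * Y)).filter fun n => q ∣ n ∧ ∀ i, (n + h i).Prime).card

/-- The admissible shifts with `5 Y T < h_i ≤ 9 Y T`. -/
noncomputable def shifts (K Y T q : ℕ) : Finset (Fin K → ℕ) :=
  (Fintype.piFinset fun _ => Ioc (5 * Y * T) (9 * Y * T)).filter (Admissible q)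

/-- For all but a proportion at most `ε` of the admissible shifts the singular series converges to a
positive number `𝔖` and `count = 𝔖 Y / log (4 Y T) ^ K`, with a relative error at most `ε`. -/
def Formula (K Y T q : ℕ) (ε : ℝ) : Prop :=
  (((shifts K Y T q).filter fun h => ¬ (0 < series q h ∧ Tendsto (partialSeries q h) atTop (nhds (series q h)) ∧
    |count Y q h * Real.log (4 * Y * T) ^ K - series q h * Y| ≤ ε * (series q h * Y))).card : ℝ) ≤
      ε * (shifts K Y T q).card

/-- For all but a proportion at most `ε` of the admissible shifts there is no `n`. -/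
def Empty (K Y T q : ℕ) (ε : ℝ) : Prop := (((shifts K Y T q).filter fun h => count Y q h ≠ 0).card : ℝ) ≤ ε * (shifts K Y T q).card

/-- Above the threshold: for all `K ≤ Q`, all `(log X) ^ ((1 + δ) K + C) ≤ Y ≤ X` and all `X ≤ 4 Y T ≤ 2 X` the formula holds
for all but at most `ε T` of the moduli `q ≤ T`. -/
def Above (δ C : ℝ) (X Q : ℕ) (ε : ℝ) : Prop :=
  ∀ K Y T : ℕ, K ≤ Q → Real.log X ^ ((1 + δ) * K + C) ≤ Y → Y ≤ X → X ≤ 4 * Y * T → 4 * Y * T ≤ 2 * X →
    (((Icc 1 T).filter fun q => ¬ Formula K Y T q ε).card : ℝ) ≤ ε * T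

/-- Below the threshold: for all `1 ≤ K ≤ log X / log log X`, all `1 ≤ Y ≤ (log X) ^ ((1 - δ) K)` and all `X ≤ 4 Y T ≤ 2 X`
there is no `n`, for all but at most `ε T` of the moduli `q ≤ T` (and almost all shifts). -/
def Below (δ : ℝ) (X : ℕ) (ε : ℝ) : Prop :=
  ∀ K Y T : ℕ, 1 ≤ K → (K : ℝ) ≤ Real.log X / Real.log (Real.log X) → 1 ≤ Y → (Y : ℝ) ≤ Real.log X ^ ((1 - δ) * K) →
    X ≤ 4 * Y * T → 4 * Y * T ≤ 2 * X → (((Icc 1 T).filter fun q => ¬ Empty K Y T q ε).card : ℝ) ≤ ε * T

/-- There is no exceptional zero at the scale `X`: the real zeros `β` of the primitive quadratic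
characters of conductor `1 < r ≤ exp (log X / log log X)` are at most `1 - C log log X / log X`. -/
def NoExceptionalZero (C : ℝ) (X : ℕ) : Prop :=
  ∀ (r : ℕ) [NeZero r], 1 < r → (r : ℝ) ≤ Real.exp (Real.log X / Real.log (Real.log X)) →
    ∀ χ : DirichletCharacter ℂ r, χ.IsPrimitive → χ ^ 2 = 1 → ∀ β : ℝ, χ.LFunction β = 0 →
      β ≤ 1 - C * (Real.log (Real.log X) / Real.log X)

open Pool.Agent.Q145.LQ Pool.Agent.Q145.LE Pool.Agent.Q145.LT Pool.Agent.Q145.LX

section basics

variable {K : ℕ}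

/-- the forms -/
noncomputable def fm (K Y T q : ℕ) : Fin K → Polynomial ℤ := qt (G0 Y fun _ => T) fun _ => q

/-- the shift of the constants -/
def sh (Y T : ℕ) (s : Fin K → ℕ) : Fin K → ℕ := fun i => 5 * Y * T + s i

theorem nu_eq (Y T q : ℕ) (s : Fin K → ℕ) (p : ℕ) : nuQ (fm K Y T q) s p = classes q (sh Y T s) p := by
  unfold nuQ classes sh fm
  congr 1
  apply filter_congr
  intro n _
  refine exists_congr fun i => ?_
  rw [qt_eval, ← Int.natCast_dvd_natCast]
  have : (q : ℤ) * n + 5 * Y * T + s i = ((q * n + (5 * Y * T + s i) : ℕ) : ℤ) := by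
    push_cast
    ring
  rw [this]

theorem adm_iff (Y T q : ℕ) (s : Fin K → ℕ) : AdmQ (fm K Y T q) s ↔ Admissible q (sh Y T s) := by
  unfold AdmQ Admissible
  simp only [nu_eq]

theorem partial_eq (Y T q : ℕ) (s : Fin K → ℕ) : singPQ (fm K Y T q) s = partialSeries q (sh Y T s) := by
  funext w
  unfold singPQ partialSeries locQ
  simp only [nu_eq]

theorem series_eq (Y T q : ℕ) (s : Fin K → ℕ) : singQ (fm K Y T q) s = series q (sh Y T s) := by
  unfold series singQ
  rw [partial_eq]

theorem count_eq {Y T q : ℕ} (hq : 1 ≤ q) (s : Fin K → ℕ) : cntQ Y (fm K Y T q) s = count Y q (sh Y T s) := by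
  unfold cntQ count sh
  have hv : ∀ n i, vq (fm K Y T q i) n + s i = q * n + (5 * Y * T + s i) := by
    intro n i
    unfold vq fm
    rw [qt_eval]
    have : (q : ℤ) * n + 5 * Y * T = ((q * n + 5 * Y * T : ℕ) : ℤ) := by
      push_cast
      ring
    rw [this, Int.toNat_natCast]
    ring
  simp only [hv]
  refine card_nbij' (fun m => q * m) (fun n => n / q) ?_ ?_ ?_ ?_
  · intro m hm
    simp only [coe_filter, mem_Ioc, Set.mem_ofPred_eq] at hm ⊢
    obtain ⟨⟨h1, h2⟩, h3⟩ := hm
    exact ⟨⟨Nat.mul_lt_mul_of_pos_left h1 hq, by nlinarith⟩, dvd_mul_right q m, h3⟩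
  · intro n hn
    simp only [coe_filter, mem_Ioc, Set.mem_ofPred_eq] at hn ⊢
    obtain ⟨⟨h1, h2⟩, ⟨m, rfl⟩, h3⟩ := hn
    rw [Nat.mul_div_cancel_left m hq]
    refine ⟨⟨Nat.lt_of_mul_lt_mul_left h1, ?_⟩, h3⟩
    by_contra hc
    push Not at hc
    have : q * (2 * Y) < q * m := Nat.mul_lt_mul_of_pos_left hc hq
    nlinarith
  · intro m hm
    exact Nat.mul_div_cancel_left m hq
  · intro n hn
    simp only [coe_filter, mem_Ioc, Set.mem_ofPred_eq] at hn
    exact Nat.mul_div_cancel' hn.2.1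

theorem card_shift (Y T q : ℕ) (P : (Fin K → ℕ) → Prop) [DecidablePred P] :
    ((shifts K Y T q).filter P).card = ((ATQ (fun _ : Fin K => 4 * Y * T) (fm K Y T q)).filter fun s => P (sh Y T s)).card := by
  symm
  refine card_nbij' (fun s => sh Y T s) (fun b i => b i - 5 * Y * T) ?_ ?_ ?_ ?_
  · intro s hs
    simp only [coe_filter, shifts, ATQ, mem_filter, Fintype.mem_piFinset, mem_Icc, mem_Ioc, Set.mem_ofPred_eq] at hs ⊢
    obtain ⟨⟨h1, h2⟩, h3⟩ := hs
    refine ⟨⟨fun i => ?_, (adm_iff Y T q s).1 h2⟩, h3⟩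
    have := h1 i
    unfold sh
    have e : 9 * Y * T = 5 * Y * T + 4 * Y * T := by ring
    omega
  · intro b hb
    simp only [coe_filter, shifts, ATQ, mem_filter, Fintype.mem_piFinset, mem_Icc, mem_Ioc, Set.mem_ofPred_eq] at hb ⊢
    obtain ⟨⟨h1, h2⟩, h3⟩ := hb
    have e : sh Y T (fun i => b i - 5 * Y * T) = b := by
      funext i
      have := h1 i
      unfold sh
      beta_reduce
      omega
    refine ⟨⟨fun i => ?_, (adm_iff Y T q _).2 (by rw [e]; exact h2)⟩, by rw [e]; exact h3⟩
    have := h1 i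
    have e : 9 * Y * T = 5 * Y * T + 4 * Y * T := by ring
    omega
  · intro s hs
    funext i
    unfold sh
    dsimp only
    omega
  · intro b hb
    simp only [coe_filter, shifts, mem_filter, Fintype.mem_piFinset, mem_Ioc, Set.mem_ofPred_eq] at hb
    funext i
    have := hb.1.1 i
    unfold sh
    dsimp only
    omega

theorem formula_of {Y T q : ℕ} {ε : ℝ} (hq : 1 ≤ q) (h : HLC Y (fun _ : Fin K => 4 * Y * T) (fm K Y T q) ε) : Formula K Y T q ε := by
  unfold HLC at h
  unfold Formula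
  have h2 := card_shift (K := K) Y T q (fun _ => True)
  simp only [filter_true] at h2
  rw [card_shift Y T q, h2]
  have e : Real.log (4 * Y * T) ^ K = ∏ _i : Fin K, Real.log ((4 * Y * T : ℕ) : ℝ) := by
    rw [prod_const, card_univ, Fintype.card_fin]
    push_cast
    rfl
  rw [e]
  simp only [← count_eq hq, ← series_eq, ← partial_eq]
  convert h using 3

theorem empty_of {Y T q : ℕ} {ε : ℝ} (hq : 1 ≤ q) (h : (((ATQ (fun _ : Fin K => 4 * Y * T) (fm K Y T q)).filter fun s => cntQ Y (fm K Y T q) s ≠ 0).card : ℝ) ≤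
    ε * (ATQ (fun _ : Fin K => 4 * Y * T) (fm K Y T q)).card) : Empty K Y T q ε := by
  unfold Empty
  have h2 := card_shift (K := K) Y T q (fun _ => True)
  simp only [filter_true] at h2
  rw [card_shift Y T q, h2]
  simp only [← count_eq hq]
  convert h using 3

end basics

theorem two_le_Uz (K : ℕ) : 2 ≤ Uz (4 * (K + 1)) := by
  rcases Nat.eq_zero_or_pos K with h | h
  · subst h
    unfold Uz
    norm_num
  · calc 2 = 2 ^ 1 := by norm_num
      _ ≤ 2 ^ K := Nat.pow_le_pow_right (by norm_num) h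
      _ ≤ _ := Uz_ge K

theorem above_of {δ C : ℝ} {X Q : ℕ} {ε : ℝ} (hl : 1 ≤ Real.log (Real.log X)) (h : PCX δ C X (4 * (Q + 1)) ε) : Above δ C X Q ε := by
  intro K Y T hK hY hYX hT1 hT2
  have hL0 : 0 < Real.log X := by
    rcases (Real.log_natCast_nonneg X).lt_or_eq with h | h
    · exact h
    · rw [← h] at hl
      simp at hl
      linarith
  have h1 := h Y K T (by
    rw [← Real.log_rpow hL0]
    exact Real.log_le_log (Real.rpow_pos_of_pos hL0 _) hY) hYX (by omega) ⟨hT1, hT2.trans (Nat.mul_le_mul_right _ (two_le_Uz K))⟩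
  refine le_trans ?_ h1
  have : ((Icc 1 T).filter fun q => ¬ Formula K Y T q ε) ⊆ (Icc 1 T).filter fun t => ¬ HLC Y (fun _ : Fin K => 4 * Y * T) (qt (G0 Y fun _ : Fin K => T) fun _ => t) ε := by
    intro q hq
    rw [mem_filter] at hq ⊢
    exact ⟨hq.1, fun h => hq.2 (formula_of (mem_Icc.1 hq.1).1 h)⟩
  exact_mod_cast card_le_card this

theorem below_of {δ : ℝ} {X : ℕ} {ε : ℝ} (hl : 1 ≤ Real.log (Real.log X)) (h : PCZ δ X ε) : Below δ X ε := by
  intro K Y T hK1 hKL hY1 hY hT1 hT2
  have hL0 : 0 < Real.log X := by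
    rcases (Real.log_natCast_nonneg X).lt_or_eq with h | h
    · exact h
    · rw [← h] at hl
      simp at hl
      linarith
  have hY0 : (0 : ℝ) < Y := by exact_mod_cast hY1
  have h1 := h Y K T hK1 hKL hY1 (by
    have h2 := Real.log_le_log hY0 hY
    rw [Real.log_rpow hL0] at h2
    linarith) ⟨hT1, hT2.trans (Nat.mul_le_mul_right _ (two_le_Uz K))⟩
  refine le_trans ?_ h1
  refine Nat.cast_le.2 (card_le_card ?_)
  intro q hq
  rw [mem_filter] at hq ⊢
  exact ⟨hq.1, fun h => hq.2 (empty_of (mem_Icc.1 hq.1).1 (by unfold fm; convert h using 3))⟩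

/-- **Theorem.** Let `0 < δ ≤ 1`. (0) For every large `X` there are no prime tuples below the threshold, for almost all moduli and
admissible shifts. There is `C₁ > 0` such that, with `Above = Above δ C₁`: (1) for every large `X` the formula holds above the threshold for all
lengths `K ≤ A log log X`; (2) for arbitrarily large `X` for all `K ≤ c log X / log log X`; (3) for every large `X` for all `K ≤ c log X / log log X`, unless there is an
exceptional zero at the scale `X`. -/
theorem result : ∀ δ : ℝ, 0 < δ → δ ≤ 1 →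
    (∀ ε : ℝ, 0 < ε → ∀ᶠ X : ℕ in atTop, Below δ X ε) ∧
    ∃ C₁ : ℝ, 0 < C₁ ∧
    (∀ A ε : ℝ, 0 < ε → ∀ᶠ X : ℕ in atTop, ∀ Q : ℕ, (Q : ℝ) ≤ A * Real.log (Real.log X) → Above δ C₁ X Q ε) ∧
    (∃ c : ℝ, 0 < c ∧ ∀ ε : ℝ, 0 < ε → ∃ᶠ X : ℕ in atTop, ∀ Q : ℕ, (Q : ℝ) ≤ c * (Real.log X / Real.log (Real.log X)) → Above δ C₁ X Q ε) ∧
    (∃ c C : ℝ, 0 < c ∧ 0 < C ∧ ∀ ε : ℝ, 0 < ε → ∀ᶠ X : ℕ in atTop, NoExceptionalZero C X →
      ∀ Q : ℕ, (Q : ℝ) ≤ c * (Real.log X / Real.log (Real.log X)) → Above δ C₁ X Q ε) := by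
  intro δ hδ0 hδ1
  have hev := Pool.Agent.Q145.SZ.ll_tendsto.eventually_ge_atTop 1
  refine ⟨fun ε hε => ?_, ?_⟩
  · filter_upwards [lowCX δ ε hδ0 hε, hev] with X h1 h2
    exact below_of h2 h1
  obtain ⟨C₁, hC₁, m1, m2, m3⟩ := mainCX hδ0 hδ1
  have hLL : Tendsto (fun X : ℕ => Real.log X / Real.log (Real.log X)) atTop atTop := by
    have h1 : Tendsto (fun x : ℝ => x / Real.log x) atTop atTop := by
      have h2 := Real.isLittleO_log_id_atTop
      have h3 : Tendsto (fun x : ℝ => Real.log x / x) atTop (nhds 0) := h2.tendsto_div_nhds_zero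
      have h4 : ∀ᶠ x : ℝ in atTop, 0 < Real.log x / x := by
        filter_upwards [eventually_gt_atTop 1] with x hx
        exact div_pos (Real.log_pos hx) (by linarith)
      have h5 : Tendsto (fun x : ℝ => (Real.log x / x)⁻¹) atTop atTop :=
        tendsto_inv_nhdsGT_zero.comp (tendsto_nhdsWithin_iff.2 ⟨h3, h4⟩)
      refine h5.congr fun x => ?_
      rw [inv_div]
    exact h1.comp Pool.Agent.Q145.SZ.log_tendsto
  refine ⟨C₁, hC₁, ?_, ?_, ?_⟩
  · intro A ε hε
    filter_upwards [m1 (4 * |A| + 4) ε hε, hev] with X h hX Q hQ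
    apply above_of hX
    apply h
    have h1 : A * Real.log (Real.log X) ≤ |A| * Real.log (Real.log X) := mul_le_mul_of_nonneg_right (le_abs_self A) (by linarith)
    push_cast
    nlinarith
  · obtain ⟨c, hc, h⟩ := m2
    refine ⟨c / 8, by positivity, fun ε hε => ?_⟩
    refine ((h ε hε).and_eventually ((hLL.eventually_ge_atTop (8 / c)).and hev)).mono ?_
    rintro X ⟨h1, h2, h3⟩ Q hQ
    apply above_of h3
    apply h1
    rw [div_le_iff₀ hc] at h2
    push_cast
    linarith
  · obtain ⟨c, C, hc, hC, h⟩ := m3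
    refine ⟨c / 8, C, by positivity, hC, fun ε hε => ?_⟩
    filter_upwards [h ε hε, hLL.eventually_ge_atTop (8 / c), hev] with X h1 h2 h3 hne Q hQ
    apply above_of h3
    apply h1 hne
    rw [div_le_iff₀ hc] at h2
    push_cast
    linarith

end Pool.Agent.Results.MP_e87c7d_nt.LargeModuli
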