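import Pool.Agent.Q148.BA.Cnts

/-!
# Prime pairs and pairs (prime, product of two large primes), for almost all differences

For all even `h ≤ x` outside a set of at most `x^(1-κ)` exceptions, and for all `y ≤ x`: let `π` be the number of
the primes `p ≤ y` for which `p + h` (or `|p - h|`) is a prime, and `π'` the number of the primes `p ≤ y` for which it
is a product of two different primes, both larger than `x^(c κ)`. With the singular series `𝔖(h)`,
`π ≤ (2 + ε) 𝔖(h) y / log² x` and `2 π + π' ≥ (4 - ε) 𝔖(h) y / log² x`, where `ε y = C κ log²(1/κ) x`.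
-/

set_option autoImplicit false

namespace Pool.Agent.Results.MP_e87c7d_nt.PairsOrTwoLargePrimes

open Finset

/-- the constant of the twin primes: the infimum (the limit) of the decreasing products
`∏_{3 ≤ p ≤ z} (1 - 1/(p-1)²)` -/
noncomputable def twin : ℝ := ⨅ z : ℕ, ∏ p ∈ (Icc 3 z).filter Nat.Prime, (1 - 1 / ((p : ℝ) - 1) ^ 2)

/-- the singular series of the pair `n, n + h`, `h` even: `2 C₂ ∏_{p ∣ h, p > 2} (p - 1)/(p - 2)` -/
noncomputable def sing (h : ℕ) : ℝ :=
  2 * twin * ∏ p ∈ h.primeFactors.filter (fun p => 2 < p), ((p : ℝ) - 1) / ((p : ℝ) - 2)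

/-- the primes `≤ y` -/
def primes (y : ℕ) : Finset ℕ := (Icc 1 y).filter Nat.Prime

/-- the number of the primes `p ≤ y` for which `v p` is a prime -/
noncomputable def pairCount (v : ℕ → ℕ) (y : ℕ) : ℝ := (((primes y).filter (fun p => (v p).Prime)).card : ℝ)

open Classical in
/-- the number of the primes `p ≤ y` for which `v p` is the product of two different primes `> t` -/
noncomputable def twoPrimes (v : ℕ → ℕ) (t : ℝ) (y : ℕ) : ℝ :=
  (((primes y).filter (fun p => ∃ q r : ℕ, q.Prime ∧ r.Prime ∧ t < q ∧ q < r ∧ v p = q * r)).card : ℝ)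

theorem result : ∃ C : ℝ, 0 < C ∧ ∃ c : ℝ, 0 < c ∧ ∀ κ : ℝ, 0 < κ → κ ≤ 1 / 8 →
    ∃ x₀ : ℕ, ∀ x : ℕ, x₀ ≤ x → ∃ Ex : Finset ℕ, (Ex.card : ℝ) ≤ (x : ℝ) ^ (1 - κ) ∧
      ∀ h : ℕ, 1 ≤ h → h ≤ x → Even h → h ∉ Ex →
        ∀ v : ℕ → ℕ, (v = fun p => p + h) ∨ (v = fun p => (p - h) + (h - p)) → ∀ y : ℕ, y ≤ x →
          pairCount v y ≤ (2 * y + C * (κ * Real.log (1 / κ) ^ 2) * x) * sing h / Real.log x ^ 2 ∧
          (4 * y - C * (κ * Real.log (1 / κ) ^ 2) * x) * sing h / Real.log x ^ 2 ≤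
            2 * pairCount v y + twoPrimes v ((x : ℝ) ^ (c * κ)) y :=
  Pool.Agent.Q148.BA.pairs

end Pool.Agent.Results.MP_e87c7d_nt.PairsOrTwoLargePrimes
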