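import Mathlib
import Pool.Agent.Q118.HW.Forms
import Pool.Agent.Q118.HW.Arr

/-!
# In every array of shifts a fixed proportion of the subarrays satisfies the prime tuples conjecture up to a bounded
# perturbation and a power of the logarithm

Let `δ < 5 / 18`, and let `d`, `r`, `m ≥ 1` be fixed, `2 ≤ r ^ d`. There is a `C` such that for all large `x` and EVERY
`d`-dimensional array `u` of integers `|u| ≤ x` of ANY size `K × ... × K`, `K ≥ C`, at least the proportion
`δ ^ (r ^ d - 1)` of its `r × ... × r` subarrays are good: there are pairwise disjoint sets `A t` of `m` integers, `t` an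
index of the subarray, with `|a - u t| ≤ C` for all `a ∈ A t`, such that for at least `x / (log x) ^ C` integers
`0 ≤ n ≤ C x` all the numbers `n + a` are primes.
The same holds, with the proportion `δ ^ (|F| - 1)` and for all `K`, for the entries of the subarrays with indices in any
set `F` of at least two elements which satisfies Sidorenko's inequality (boxes do).

Proof: by the uniform coloured Maynard-Tao theorem of the starting files with the constant `18 / 5` the good families of
entries carry the proportion `5 / 18` of every weight; by duality there is a random good family which contains every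
entry with the probability `5 / 18`; Sidorenko's inequality and Jensen's inequality.
-/

set_option autoImplicit false

namespace Pool.Agent.Results.MP_e87c7d_nt.SubarraysFiveEighteenths

open Finset Filter

/-- the index, in an array with sides `K`, of the entry with index `i` of the subarray selected by `g` -/
def entry {d r K : ℕ} (g : Fin d → Fin r → Fin K) (i : Fin d → Fin r) : Fin d → Fin K := fun j => g j (i j)

/-- The family `u t`, `t ∈ S`, is good: there are pairwise disjoint sets `A t` of `m` integers each, with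
`|a - u t| ≤ C` for `a ∈ A t`, such that for at least `x / (log x) ^ C` integers `0 ≤ n ≤ C x` all the numbers `n + a`,
`a ∈ A t`, `t ∈ S`, are primes. -/
def Good (C m x : ℕ) {V : Type} (S : Finset V) (u : V → ℤ) : Prop :=
  ∃ A : V → Finset ℤ, (∀ t ∈ S, (A t).card = m ∧ ∀ a ∈ A t, |a - u t| ≤ C) ∧
    (∀ t ∈ S, ∀ t' ∈ S, t ≠ t' → Disjoint (A t) (A t')) ∧
    (x : ℝ) / Real.log x ^ C ≤
      ({n : ℕ | n ≤ C * x ∧ ∀ t ∈ S, ∀ a ∈ A t, ((n : ℤ) + a).toNat.Prime}.ncard : ℝ)

/-- Sidorenko's inequality for a set `F` of indices: if `S` contains the proportion `s` of the entries of an array with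
sides `L`, then for at least the proportion `s ^ |F|` of the selections `f` all the entries with indices in `F`
of the selected subarray are in `S`. -/
def Sidorenko {d r : ℕ} (F : Finset (Fin d → Fin r)) : Prop :=
  ∀ L : ℕ, 1 ≤ L → ∀ S : Finset (Fin d → Fin L),
    ((S.card : ℝ) / (L : ℝ) ^ d) ^ F.card * ((L : ℝ) ^ r) ^ d ≤
      (((univ : Finset (Fin d → Fin r → Fin L)).filter (fun f => ∀ i ∈ F, entry f i ∈ S)).card : ℝ)

theorem good_of {C m x : ℕ} {V : Type} {S : Finset V} {u : V → ℤ}
    (h : Pool.Agent.Q118.HW.GF m C x V S (fun t => (1, u t))) : Good C m x S u := by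
  obtain ⟨E, h1, h2, h3⟩ := h
  refine ⟨E, h1, fun t ht t' ht' hne => ?_, ?_⟩
  · rw [Finset.disjoint_left]
    intro a ha ha'
    exact h2 t ht t' ht' hne a ha a ha' rfl
  · simp only [one_mul] at h3
    exact h3

open Classical in
theorem result (δ : ℝ) (h0 : 0 < δ) (h1 : δ < 5 / 18) :
    (∀ d r m : ℕ, 2 ≤ r ^ d → ∃ C : ℕ, ∀ᶠ x : ℕ in atTop, ∀ K : ℕ, C ≤ K →
      ∀ u : (Fin d → Fin K) → ℤ, (∀ ω, |u ω| ≤ x) →
        δ ^ (r ^ d - 1) * (K.choose r : ℝ) ^ d ≤ (((univ : Finset (Fin d → Finset (Fin K))).filter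
          (fun I => (∀ j, (I j).card = r) ∧ Good C m x (Fintype.piFinset I) u)).card : ℝ)) ∧
    (∀ (d r m : ℕ) (F : Finset (Fin d → Fin r)), 2 ≤ F.card → Sidorenko F →
      ∃ C : ℕ, ∀ᶠ x : ℕ in atTop, ∀ (K : ℕ) (u : (Fin d → Fin K) → ℤ), (∀ ω, |u ω| ≤ x) →
        δ ^ (F.card - 1) * ((K : ℝ) ^ r) ^ d ≤ (((univ : Finset (Fin d → Fin r → Fin K)).filter
          (fun g => Good C m x F (fun i => u (entry g i)))).card : ℝ)) ∧
    (∀ d r : ℕ, Sidorenko (univ : Finset (Fin d → Fin r))) := by
  have h5 : (0 : ℝ) < 5 / 18 := by norm_num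
  refine ⟨fun d r m h2 => ?_, fun d r m F hF hS => ?_, fun d r => ?_⟩
  · obtain ⟨C, H⟩ := Pool.Agent.Q118.HW.arr2 (Pool.Agent.Q118.HW.ΓF m 1 le_rfl) h5
      (fun V => Pool.Agent.Q118.HW.carriesF m 1 le_rfl V) h0 h1 d r h2
    refine ⟨C, ?_⟩
    filter_upwards [H] with x hx K hK u hu
    refine (hx K hK (fun ω => (1, u ω)) (fun ω => ⟨le_rfl, by norm_num, hu ω⟩)).trans ?_
    rw [Nat.cast_le]
    apply card_le_card
    intro I hI
    rw [mem_filter] at hI ⊢
    exact ⟨hI.1, hI.2.1, good_of hI.2.2⟩
  · obtain ⟨C, H⟩ := Pool.Agent.Q118.HW.arr1 (Pool.Agent.Q118.HW.ΓF m 1 le_rfl) h5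
      (fun V => Pool.Agent.Q118.HW.carriesF m 1 le_rfl V) h0 h1 d r F hF hS
    refine ⟨C, ?_⟩
    filter_upwards [H] with x hx K u hu
    refine (hx K (fun ω => (1, u ω)) (fun ω => ⟨le_rfl, by norm_num, hu ω⟩)).trans ?_
    rw [Nat.cast_le]
    apply card_le_card
    intro g hg
    rw [mem_filter] at hg ⊢
    exact ⟨hg.1, good_of hg.2⟩
  · exact Pool.Agent.Q118.HL.sid_univ d r

end Pool.Agent.Results.MP_e87c7d_nt.SubarraysFiveEighteenths
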