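import Mathlib
import Pool.Agent.Q263.PK.Poly

/-!
# Tuples of almost primes at the integers with restricted digits, and what follows them

Fix a base `b ≥ 2` and an admissible finite set `H` of non-negative integers, that is, the number
`ν(p)` of the residue classes modulo `p` of its elements is less than `p` for all primes `p`. Let `r`
be the number and `h` the largest one of its elements. For `k ≥ 1` choose for every position `i < k`
a set `D i` of digits, in any way, such that two digits in `D i` have a difference without prime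
factors outside `b`, for example two consecutive digits. Let `S` be the set of the integers
`0 ≤ n < b ^ k` whose `i`-th digit is in `D i` for every `i`; it may have only `2 ^ k` elements.
Let `S(y)` be the set of the `n ∈ S` such that no `n + a`, `a ∈ H`, has a prime factor `≤ y`, and
`V(y) = ∏_{p ≤ y} (1 - 1 / p)`.

For all `Λ` and `ε > 0` there are `L`, `y₀`, `k₀`, which depend on `b`, `H`, `Λ` and `ε` only, such that
for all `k ≥ k₀`, all choices of the sets of digits and all `y ≥ y₀` with `y ^ L ≤ b ^ k`: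

(1) the number of the elements of `S(y)` is

  `(1 + θ) · g · ∏_{i ≥ 1} |D i| · ∏_{p ∣ b} (1 - ν(p) / p)⁻¹ · 𝔖(y) · V(y) ^ r`, `|θ| ≤ ε`,

where `g` is the number of the last digits `d ∈ D 0` such that `d + a` is coprime to `b` for all
`a ∈ H`, and `𝔖(y) = ∏_{p ≤ y} (1 - 1 / p) ^ (-r) (1 - ν(p) / p)` is the partial product of the
singular series of Hardy and Littlewood;

(2) for all `T` with `x = T V(y) ≤ Λ` and all finite sets `A` the proportion of the `n ∈ S(y)` for
which the number of the integers in `(n + h, n + h + T]` without prime factors `≤ y` belongs to `A`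
differs from `∑_{j ∈ A} exp(-x) x ^ j / j!` by at most `ε`.

So the tuples of almost primes at the restricted digits have the conjectured frequency, and what
follows them is distributed as for random integers. For `H = {0}` this is the exponential law for
the gaps which start at almost primes with restricted digits.

Idea of the proof: (2) binomial moments over `S(y)`, in each residue class modulo the small primes;
they are given by the fundamental lemma of the sieve for restricted digits in a fixed residue class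
(`Pool.Agent.Q263.SW`) and by an average of the products over the sets `H ∪ J` of shifts.
-/

set_option autoImplicit false

namespace Pool.Agent.Results.MP_e87c7d_nt.TuplesAtDigits

open Finset Polynomial

/-- The integers `0 ≤ n < b ^ k` whose `i`-th digit in base `b` belongs to `D i`, for all `i < k`. -/
def Restricted (b k : ℕ) (D : Fin k → Finset ℕ) : Finset ℕ :=
  (Finset.range (b ^ k)).filter (fun n => ∀ i : Fin k, n / b ^ (i : ℕ) % b ∈ D i)

/-- Each `D i` is a set of digits, and it has two digits `c < c'` such that every prime factor of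
`c' - c` divides `b`. -/
def DigitSets (b k : ℕ) (D : Fin k → Finset ℕ) : Prop :=
  ∀ i, (∀ d ∈ D i, d < b) ∧ ∃ c ∈ D i, ∃ c' ∈ D i, c < c' ∧
    ∀ p : ℕ, p.Prime → p ∣ c' - c → p ∣ b

/-- The number of the residue classes modulo `p` of the elements of `H`. -/
def nu (H : Finset ℕ) (p : ℕ) : ℕ := (H.image (fun a => a % p)).card

/-- The product of `1 - 1 / p` over the primes `p ≤ y`. -/
noncomputable def V (y : ℕ) : ℝ := ∏ p ∈ (Finset.Icc 1 y).filter Nat.Prime, (1 - 1 / (p : ℝ))

/-- The partial product of the singular series. -/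
noncomputable def singular (H : Finset ℕ) (y : ℕ) : ℝ :=
  ∏ p ∈ (Finset.Icc 1 y).filter Nat.Prime,
    ((1 - 1 / (p : ℝ)) ^ H.card)⁻¹ * (1 - (nu H p : ℝ) / (p : ℝ))

/-- The number of the last digits `d` such that `d + a` is coprime to `b` for all `a ∈ H`. -/
def lastDigits (b k : ℕ) (D : Fin k → Finset ℕ) (H : Finset ℕ) : ℕ :=
  (((Finset.univ : Finset (Fin k)).filter (fun i : Fin k => (i : ℕ) = 0)).biUnion
    (fun i => (D i).filter (fun d : ℕ => ∀ a ∈ H, Nat.Coprime (d + a) b))).card

/-- The product of the numbers of the elements of `D i` over the positions `i ≥ 1`. -/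
def otherDigits (k : ℕ) (D : Fin k → Finset ℕ) : ℕ :=
  ∏ i ∈ (Finset.univ : Finset (Fin k)).filter (fun i : Fin k => (i : ℕ) ≠ 0), (D i).card

/-- The main term. -/
noncomputable def mainTerm (b k : ℕ) (D : Fin k → Finset ℕ) (H : Finset ℕ) (y : ℕ) : ℝ :=
  (lastDigits b k D H : ℝ) * otherDigits k D * (∏ p ∈ b.primeFactors, (1 - (nu H p : ℝ) / (p : ℝ)))⁻¹ *
    (singular H y * V y ^ H.card)

/-- `m` has no prime factor `≤ y`. -/
def Rough (y m : ℕ) : Prop := ∀ p : ℕ, p.Prime → p ≤ y → ¬ p ∣ m

open Classical in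
/-- The set `S(y)` of the `n ∈ S` such that no `n + a`, `a ∈ H`, has a prime factor `≤ y`. -/
noncomputable def Start (b k : ℕ) (D : Fin k → Finset ℕ) (H : Finset ℕ) (y : ℕ) : Finset ℕ :=
  (Restricted b k D).filter (fun n => ∀ a ∈ H, Rough y (n + a))

open Classical in
/-- The number of the integers in `(m, m + T]` without prime factors `≤ y`. -/
noncomputable def next (y T m : ℕ) : ℕ := ((Finset.Ioc m (m + T)).filter (fun t => Rough y t)).card

/-- The measure of `A` for the Poisson distribution with the mean `x`. -/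
noncomputable def poisson (x : ℝ) (A : Finset ℕ) : ℝ :=
  ∑ j ∈ A, Real.exp (-x) * x ^ j / (j.factorial : ℝ)

open Pool.Agent.H373R2.T7 Pool.Agent.W123.RP Pool.Agent.W123.RU Pool.Agent.TH464.PO
open Pool.Agent.W123.RU.Poly (Sys Q)
open Pool.Agent.Q263.PK

/-- the linear polynomial -/
noncomputable def Lp (a : ℕ) : ℤ[X] := X + C (a : ℤ)

lemma Lp_eval (a : ℕ) (t : ℤ) : (Lp a).eval t = t + a := by
  unfold Lp
  simp

lemma Lp_irr (a : ℕ) : Irreducible (Lp a) := by
  have h : Lp a = X - C (-(a : ℤ)) := by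
    unfold Lp
    rw [map_neg, sub_neg_eq_add]
  rw [h]
  exact irreducible_X_sub_C _

lemma Lp_deg (a : ℕ) : (Lp a).natDegree = 1 := by
  unfold Lp
  exact natDegree_X_add_C _

lemma Lp_lead (a : ℕ) : (Lp a).leadingCoeff = 1 := by
  unfold Lp
  exact leadingCoeff_X_add_C _

lemma Lp_inj (a a' : ℕ) (h : Lp a = Lp a') : a = a' := by
  have h1 := congrArg (fun f : ℤ[X] => f.eval 0) h
  simp only [Lp_eval, zero_add] at h1
  exact_mod_cast h1

/-- the system of the tuple -/
noncomputable def G (H : Finset ℕ) : {a // a ∈ H} → ℤ[X] := fun a => Lp a.1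

lemma QG_iff (H : Finset ℕ) (p m : ℕ) : Q (G H) p m ↔ ∃ a ∈ H, p ∣ m + a := by
  unfold Q G
  constructor
  · rintro ⟨⟨a, ha⟩, h⟩
    rw [Lp_eval] at h
    exact ⟨a, ha, by exact_mod_cast h⟩
  · rintro ⟨a, ha, h⟩
    refine ⟨⟨a, ha⟩, ?_⟩
    rw [Lp_eval]
    exact_mod_cast h

open Classical in
lemma nuB_G (H : Finset ℕ) (p : ℕ) (hp : 0 < p) : nuB (Q (G H)) p = nu H p := by
  unfold nuB nu
  symm
  apply Finset.card_bij (fun s _ => (p - s) % p)
  · intro s hs
    rw [mem_image] at hs
    obtain ⟨a, ha, rfl⟩ := hs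
    rw [mem_filter, mem_range, QG_iff]
    refine ⟨Nat.mod_lt _ hp, a, ha, ?_⟩
    rw [Nat.dvd_iff_mod_eq_zero, Nat.add_mod, Nat.mod_mod, ← Nat.add_mod]
    have h1 : a % p < p := Nat.mod_lt _ hp
    have h2 : p - a % p + a = p + p * (a / p) := by
      have := Nat.mod_add_div a p
      omega
    rw [h2, Nat.add_mul_mod_self_left, Nat.mod_self]
  · intro s hs s' hs' h
    rw [mem_image] at hs hs'
    obtain ⟨a, _, rfl⟩ := hs
    obtain ⟨a', _, rfl⟩ := hs'
    have h1 : a % p < p := Nat.mod_lt _ hp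
    have h2 : a' % p < p := Nat.mod_lt _ hp
    generalize a % p = u at *
    generalize a' % p = v at *
    rcases Nat.eq_zero_or_pos u with hu | hu <;> rcases Nat.eq_zero_or_pos v with hv | hv
    · omega
    · rw [hu, Nat.sub_zero, Nat.mod_self, Nat.mod_eq_of_lt (by omega)] at h
      omega
    · rw [hv, Nat.sub_zero, Nat.mod_self, Nat.mod_eq_of_lt (by omega)] at h
      omega
    · rw [Nat.mod_eq_of_lt (by omega), Nat.mod_eq_of_lt (by omega)] at h
      omega
  · intro r hr
    rw [mem_filter, mem_range, QG_iff] at hr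
    obtain ⟨hr1, a, ha, hd⟩ := hr
    refine ⟨a % p, mem_image.2 ⟨a, ha, rfl⟩, ?_⟩
    have h1 : a % p < p := Nat.mod_lt _ hp
    have h3 : p ∣ r + a % p := by
      rw [Nat.dvd_iff_mod_eq_zero, Nat.add_mod, Nat.mod_mod, ← Nat.add_mod]
      exact Nat.mod_eq_zero_of_dvd hd
    obtain ⟨c, hc⟩ := h3
    have hc2 : c < 2 := by
      by_contra hcon
      have : p * 2 ≤ p * c := Nat.mul_le_mul_left p (by omega)
      omega
    interval_cases c
    · have hr0 : r = 0 := by omega
      have ha0 : a % p = 0 := by omega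
      rw [ha0, hr0, Nat.sub_zero, Nat.mod_self]
    · have hr0 : p - a % p = r := by omega
      rw [hr0, Nat.mod_eq_of_lt hr1]

lemma G_sys (H : Finset ℕ) (hH : ∀ p : ℕ, p.Prime → nu H p < p) : Sys (G H) := by
  classical
  refine ⟨fun a => Lp_irr _, fun a => by unfold G; rw [Lp_deg]; norm_num, fun a => by
    unfold G; rw [Lp_lead]; norm_num, fun a a' h => Subtype.ext (Lp_inj _ _ h), ?_⟩
  intro p hp
  by_contra hcon
  push Not at hcon
  have h1 := nuB_G H p hp.pos
  have h2 := hH p hp
  rw [← h1] at h2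
  unfold nuB at h2
  have h3 : (range p).filter (fun r => Q (G H) p r) = range p := by
    rw [filter_eq_self]
    intro r _
    obtain ⟨i, hi⟩ := hcon r
    exact ⟨i, hi⟩
  rw [h3, card_range] at h2
  exact lt_irrefl _ h2

/-- the single polynomial -/
noncomputable def F1 (h : ℕ) : Fin 1 → ℤ[X] := fun _ => Lp h

lemma F1_iff (h p m : ℕ) : Q (F1 h) p m ↔ p ∣ m + h := by
  unfold Q F1
  constructor
  · rintro ⟨_, h1⟩
    rw [Lp_eval] at h1
    exact_mod_cast h1
  · intro h1
    refine ⟨0, ?_⟩
    rw [Lp_eval]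
    exact_mod_cast h1

lemma nu_single (h p : ℕ) : nu {h} p = 1 := by
  unfold nu
  rw [image_singleton, card_singleton]

lemma nuB_F1 (h p : ℕ) (hp : 0 < p) : nuB (Q (F1 h)) p = 1 := by
  classical
  calc nuB (Q (F1 h)) p = nuB (Q (G {h})) p := by
        unfold nuB
        congr 1
        apply filter_congr
        intro r _
        rw [F1_iff, QG_iff]
        simp
    _ = nu {h} p := nuB_G {h} p hp
    _ = 1 := nu_single h p

lemma F1_sys (h : ℕ) : Sys (F1 h) := by
  refine ⟨fun _ => Lp_irr _, fun _ => by unfold F1; rw [Lp_deg]; norm_num, fun _ => by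
    unfold F1; rw [Lp_lead]; norm_num, fun i j _ => Subsingleton.elim i j, ?_⟩
  intro p hp
  by_contra hcon
  push Not at hcon
  have h0 := hcon 0
  have h1 := hcon 1
  obtain ⟨_, h0⟩ := h0
  obtain ⟨_, h1⟩ := h1
  unfold F1 at h0 h1
  rw [Lp_eval] at h0 h1
  have h2 := dvd_sub h1 h0
  have h3 : (p : ℤ) ∣ 1 := by
    have e : ((1 : ℕ) : ℤ) + (h : ℤ) - (((0 : ℕ) : ℤ) + h) = 1 := by norm_num
    rwa [e] at h2
  have h4 : p ∣ 1 := by exact_mod_cast h3
  exact hp.one_lt.ne' (Nat.dvd_one.1 h4)

lemma V_eq (h y : ℕ) : Vq (Q (F1 h)) y = V y := by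
  unfold Vq V
  apply prod_congr rfl
  intro p hp
  rw [nuB_F1 h p (mem_pz.1 hp).2.pos, Nat.cast_one]

lemma V_pos (y : ℕ) : 0 < V y := by
  unfold V
  apply prod_pos
  intro p hp
  have hp2 : (2 : ℝ) ≤ p := by exact_mod_cast (mem_filter.1 hp).2.two_le
  have : 1 / (p : ℝ) ≤ 1 / 2 := by
    apply div_le_div_of_nonneg_left (by norm_num) (by norm_num) hp2
  linarith

lemma comp_ne (a h t : ℕ) (hah : a ≤ h) (ht : 1 ≤ t) : Lp a ≠ (Lp h).comp (X + C (t : ℤ)) := by
  intro h1
  have h2 := congrArg (fun f : ℤ[X] => f.eval 0) h1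
  simp only [eval_comp, eval_add, eval_X, eval_C, Lp_eval, zero_add] at h2
  have h3 : (a : ℤ) = ((t + h : ℕ) : ℤ) := by
    rw [h2]
    push_cast
    ring
  have h4 : a = t + h := by exact_mod_cast h3
  omega

/-- the product over the primes not dividing `b` -/
lemma prod_eq (b y : ℕ) (hb : b ≠ 0) (hby : b ≤ y) (H : Finset ℕ) (hH : ∀ p : ℕ, p.Prime → nu H p < p) :
    ∏ p ∈ (range (y + 1)).filter (fun p => p.Prime ∧ ¬ p ∣ b), (1 - (nu H p : ℝ) / p) =
      (∏ p ∈ b.primeFactors, (1 - (nu H p : ℝ) / (p : ℝ)))⁻¹ * (singular H y * V y ^ H.card) := by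
  have hpos : ∀ p : ℕ, p.Prime → 0 < 1 - (nu H p : ℝ) / (p : ℝ) := by
    intro p hp
    have hp0 : (0 : ℝ) < p := by exact_mod_cast hp.pos
    have : (nu H p : ℝ) / p < 1 := by
      rw [div_lt_one hp0]
      exact_mod_cast hH p hp
    linarith
  have h1 : singular H y * V y ^ H.card = ∏ p ∈ (Finset.Icc 1 y).filter Nat.Prime,
      (1 - (nu H p : ℝ) / (p : ℝ)) := by
    unfold singular V
    rw [← prod_pow, ← prod_mul_distrib]
    apply prod_congr rfl
    intro p hp
    have hp2 : (2 : ℝ) ≤ p := by exact_mod_cast (mem_filter.1 hp).2.two_le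
    have h2 : 1 / (p : ℝ) ≤ 1 / 2 := by
      apply div_le_div_of_nonneg_left (by norm_num) (by norm_num) hp2
    have h3 : 0 < (1 - 1 / (p : ℝ)) ^ H.card := pow_pos (by linarith) _
    rw [mul_comm, ← mul_assoc, mul_inv_cancel₀ h3.ne', one_mul]
  rw [h1]
  have h2 : b.primeFactors ⊆ (Finset.Icc 1 y).filter Nat.Prime := by
    intro p hp
    rw [Nat.mem_primeFactors] at hp
    rw [mem_filter, mem_Icc]
    have := Nat.le_of_dvd (Nat.pos_of_ne_zero hb) hp.2.1
    exact ⟨⟨hp.1.one_lt.le, by omega⟩, hp.1⟩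
  have h3 : (range (y + 1)).filter (fun p => p.Prime ∧ ¬ p ∣ b) =
      (Finset.Icc 1 y).filter Nat.Prime \ b.primeFactors := by
    ext p
    rw [mem_filter, mem_range, mem_sdiff, mem_filter, mem_Icc, Nat.mem_primeFactors]
    constructor
    · rintro ⟨h4, h5, h6⟩
      exact ⟨⟨⟨h5.one_lt.le, by omega⟩, h5⟩, fun h => h6 h.2.1⟩
    · rintro ⟨⟨⟨_, h4⟩, h5⟩, h6⟩
      exact ⟨by omega, h5, fun h => h6 ⟨h5, h, hb⟩⟩
  rw [h3, ← prod_sdiff h2]
  have h4 : ∏ p ∈ b.primeFactors, (1 - (nu H p : ℝ) / (p : ℝ)) ≠ 0 :=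
    (prod_pos fun p hp => hpos p (Nat.prime_of_mem_primeFactors hp)).ne'
  field_simp

open Classical in
theorem result : ∀ b : ℕ, 2 ≤ b → ∀ (H : Finset ℕ) (h : ℕ), h ∈ H → (∀ a ∈ H, a ≤ h) →
    (∀ p : ℕ, p.Prime → nu H p < p) → ∀ Λ ε : ℝ, 0 < ε →
    ∃ L y₀ k₀ : ℕ, 1 ≤ L ∧ ∀ k : ℕ, k₀ ≤ k → ∀ D : Fin k → Finset ℕ, DigitSets b k D →
      ∀ y : ℕ, y₀ ≤ y → y ^ L ≤ b ^ k →
      |((Start b k D H y).card : ℝ) - mainTerm b k D H y| ≤ ε * mainTerm b k D H y ∧
      ∀ T : ℕ, T * V y ≤ Λ → ∀ A : Finset ℕ,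
        |(((Start b k D H y).filter (fun n => next y T (n + h) ∈ A)).card : ℝ) -
          (Start b k D H y).card * poisson (T * V y) A| ≤ ε * (Start b k D H y).card := by
  intro b hb H h hh hmax hH Λ ε hε
  have hNoTr : NoTr (F1 h) := fun i j t ht => comp_ne h h t le_rfl ht
  obtain ⟨L, y₀, k₀, hL, hmain⟩ := poly_win2 hb (G H) (G_sys H hH) (F1 h) (F1_sys h)
    hNoTr (fun i j t ht => comp_ne i.1 h t (hmax i.1 i.2) ht) Λ ε hε
  obtain ⟨c, _, hQ⟩ := Poly.exists_c _ (G_sys H hH)
  obtain ⟨L', k₀', hL', hlow⟩ := Fx_asy hb c ε hε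
  refine ⟨L + L', max y₀ (b + 1), max k₀ k₀' + 1, by omega, ?_⟩
  intro k hk D hD y hy hyL
  have hk0 : 0 < k := by omega
  have hy1 : 1 ≤ y := by omega
  have hby : b ≤ y := by omega
  have hyL1 : y ^ L ≤ b ^ k := (Nat.pow_le_pow_right hy1 (by omega)).trans hyL
  have hyL2 : y ^ L' ≤ b ^ k := (Nat.pow_le_pow_right hy1 (by omega)).trans hyL
  have hSf : ∀ m : ℕ, Sf (Q (G H)) y m ↔ ∀ a ∈ H, Rough y (m + a) := by
    intro m
    unfold Sf Rough
    constructor
    · intro h1 a ha p hp hpy hd
      exact h1 p (mem_pz.2 ⟨hpy, hp⟩) ((QG_iff H p m).2 ⟨a, ha, hd⟩)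
    · intro h1 p hp hd
      obtain ⟨a, ha, hd'⟩ := (QG_iff H p m).1 hd
      exact h1 a ha p (mem_pz.1 hp).2 (mem_pz.1 hp).1 hd'
  have hStart : Fx (Q (G H)) y (Pool.Agent.Q263.MD.Dig b k D) = Start b k D H y := by
    unfold Fx Start
    apply Finset.filter_congr
    intro n _
    exact hSf n
  constructor
  · have h1 := hlow k (by omega) D (fun i => (hD i).1) (fun i => (hD i).2) y hyL2 _ hQ
    have hX : Pool.Agent.Q263.SW.Xt b k D (fun p => (range p).filter (fun r => Q (G H) p r)) y =
        mainTerm b k D H y := by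
      unfold Pool.Agent.Q263.SW.Xt mainTerm
      have e1 : ∏ p ∈ (range (y + 1)).filter (fun p => p.Prime ∧ ¬ p ∣ b),
          (1 - ((((range p).filter (fun r => Q (G H) p r)).card : ℕ) : ℝ) / p) =
          ∏ p ∈ (range (y + 1)).filter (fun p => p.Prime ∧ ¬ p ∣ b), (1 - (nu H p : ℝ) / p) := by
        apply prod_congr rfl
        intro p hp
        rw [mem_filter] at hp
        have := nuB_G H p hp.2.1.pos
        unfold nuB at this
        rw [this]
      rw [e1, prod_eq b y (by omega) hby H hH]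
      have e2 : ((if hk : 0 < k then D ⟨0, hk⟩ else ∅).filter (fun d => ∀ p : ℕ, p.Prime → p ∣ b →
          p ≤ y → d % p ∉ (range p).filter (fun r => Q (G H) p r))).card = lastDigits b k D H := by
        unfold lastDigits
        have e3 : (Finset.univ : Finset (Fin k)).filter (fun i : Fin k => (i : ℕ) = 0) = {⟨0, hk0⟩} := by
          ext i
          rw [mem_filter, mem_singleton]
          constructor
          · rintro ⟨_, hi⟩
            exact Fin.ext hi
          · rintro rfl
            exact ⟨mem_univ _, rfl⟩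
        rw [e3, singleton_biUnion, dif_pos hk0]
        congr 1
        apply filter_congr
        intro d _
        constructor
        · intro h2 a ha
          rw [Nat.coprime_iff_gcd_eq_one] at *
          by_contra hne
          obtain ⟨p, hp, hpd⟩ := Nat.exists_prime_and_dvd hne
          have h3 := hpd.trans (Nat.gcd_dvd_left _ _)
          have h4 := hpd.trans (Nat.gcd_dvd_right _ _)
          apply h2 p hp h4 ((Nat.le_of_dvd (by omega) h4).trans hby)
          rw [mem_filter, mem_range]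
          refine ⟨Nat.mod_lt _ hp.pos, (hQ.per p d).1 ?_⟩
          exact (QG_iff H p d).2 ⟨a, ha, h3⟩
        · intro h2 p hp hpb _ hm
          rw [mem_filter] at hm
          obtain ⟨a, ha, hd⟩ := (QG_iff H p d).1 ((hQ.per p d).2 hm.2)
          exact Nat.not_coprime_of_dvd_of_dvd hp.one_lt hd hpb (h2 a ha)
      rw [e2]
      have e4 : Pool.Agent.Q263.SW.Pd D = otherDigits k D := rfl
      rw [e4]
      ring
    rw [hX, hStart] at h1
    exact h1
  · intro T hT A
    have h1 := hmain k (by omega) D (fun i => (hD i).1) (fun i => (hD i).2) y (by omega) hyL1 T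
      (by rw [V_eq]; exact hT) A
    rw [hStart, V_eq] at h1
    have e1 : (Start b k D H y).filter (fun n => Nw (Q (F1 h)) y T n ∈ A) =
        (Start b k D H y).filter (fun n => next y T (n + h) ∈ A) := by
      apply Finset.filter_congr
      intro n _
      have e2 : Nw (Q (F1 h)) y T n = next y T (n + h) := by
        rw [Pool.Agent.Q263.PL.Nw_eq _ _ _ _ (fun m => Rough y (m + h)) (fun m => by
          unfold Sf Rough
          constructor
          · intro h1 p hp hpy hd
            exact h1 p (mem_pz.2 ⟨hpy, hp⟩) ((F1_iff h p m).2 hd)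
          · intro h1 p hp hd
            exact h1 p (mem_pz.1 hp).2 (mem_pz.1 hp).1 ((F1_iff h p m).1 hd))]
        unfold next
        apply Finset.card_bij (fun t _ => t + h)
        · intro t ht
          rw [mem_filter, mem_Ioc] at ht
          rw [mem_filter, mem_Ioc]
          exact ⟨by omega, ht.2⟩
        · intro a _ c _ hac
          omega
        · intro m hm
          rw [mem_filter, mem_Ioc] at hm
          refine ⟨m - h, ?_, by omega⟩
          rw [mem_filter, mem_Ioc, show m - h + h = m by omega]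
          exact ⟨by omega, hm.2⟩
      rw [e2]
    rw [e1] at h1
    exact h1

end Pool.Agent.Results.MP_e87c7d_nt.TuplesAtDigits
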